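import Pool.Agent.H31.BOU.Targets1

/-!
# MP_352bb5_an, row PUR: the pursuit
-/

set_option autoImplicit false

namespace Pool.Agent.H46.BOU

open Finset Pool.Agent.H31.BOU

theorem mem_blk {j : ℕ} {m v : ℤ} : v ∈ blk j m ↔ v / 2 ^ j = m := by
  have hp : (0 : ℤ) < 2 ^ j := by positivity
  unfold blk
  rw [mem_Ico]
  constructor
  · rintro ⟨h1, h2⟩
    have h3 : v / 2 ^ j < m + 1 := Int.ediv_lt_of_lt_mul hp h2
    have h4 : m ≤ v / 2 ^ j := Int.le_ediv_of_mul_le hp h1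
    omega
  · rintro rfl
    exact ⟨Int.ediv_mul_le v hp.ne', Int.lt_ediv_add_one_mul_self v hp⟩

theorem mem_big {J j : ℕ} (hj : j ≤ J + 1) {v : ℤ} :
    v ∈ Ico (0 : ℤ) (2 ^ (J + 1)) ↔ v / 2 ^ j ∈ Ico (0 : ℤ) (2 ^ (J + 1 - j)) := by
  have hp : (0 : ℤ) < 2 ^ j := by positivity
  have h1 : (2 : ℤ) ^ (J + 1) = 2 ^ (J + 1 - j) * 2 ^ j := by
    rw [← pow_add]
    congr 1
    omega
  rw [mem_Ico, mem_Ico, h1, Int.ediv_lt_iff_lt_mul hp, Int.le_ediv_iff_mul_le hp, zero_mul]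

theorem sum_blk {J j : ℕ} (hj : j ≤ J + 1) (f : ℤ → ℝ) :
    ∑ v ∈ Ico (0 : ℤ) (2 ^ (J + 1)), f v =
      ∑ m ∈ Ico (0 : ℤ) (2 ^ (J + 1 - j)), ∑ v ∈ blk j m, f v := by
  rw [← Finset.sum_fiberwise_of_maps_to (g := fun v : ℤ => v / 2 ^ j)
    (fun v hv => (mem_big hj).1 hv)]
  refine Finset.sum_congr rfl fun m hm => Finset.sum_congr ?_ fun _ _ => rfl
  ext v
  rw [mem_filter, mem_blk]
  constructor
  · exact fun h => h.2
  · intro h
    exact ⟨(mem_big hj).2 (h ▸ hm), h⟩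

/-- removal of coefficients on one block -/
theorem cf_rem (hI : T_INV) (H H' : ℤ → ℂ) (j : ℕ) (m : ℤ) (S : Finset ℕ)
    (hS : S ⊆ range (2 ^ j))
    (hH : ∀ v ∈ blk j m, H' v = H v - ∑ a ∈ S, cf H j m a * ee ((a : ℝ) * (v : ℝ) / 2 ^ j))
    (b : ℕ) (hb : b ∈ range (2 ^ j)) :
    cf H' j m b = if b ∈ S then 0 else cf H j m b := by
  have h2 : (2 : ℂ) ^ j ≠ 0 := pow_ne_zero _ two_ne_zero
  have h1 : cf H' j m b = cf H j m b -
      ∑ a ∈ S, cf H j m a * ((if b = a then (2 : ℂ) ^ j else 0) / 2 ^ j) := by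
    have h3 : ∑ v ∈ blk j m, H' v * ee (-((b : ℝ) * (v : ℝ) / 2 ^ j)) =
        ∑ v ∈ blk j m, H v * ee (-((b : ℝ) * (v : ℝ) / 2 ^ j)) -
        ∑ a ∈ S, cf H j m a * (if b = a then (2 : ℂ) ^ j else 0) := by
      have h4 : ∀ a ∈ S, cf H j m a * (if b = a then (2 : ℂ) ^ j else 0) =
          ∑ v ∈ blk j m, cf H j m a * ee ((a : ℝ) * (v : ℝ) / 2 ^ j) *
            ee (-((b : ℝ) * (v : ℝ) / 2 ^ j)) := by
        intro a ha
        rw [← (hI H j m).2.2 b hb a (hS ha), Finset.mul_sum]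
        exact Finset.sum_congr rfl fun v _ => (mul_assoc _ _ _).symm
      rw [Finset.sum_congr rfl h4, Finset.sum_comm, ← Finset.sum_sub_distrib]
      refine Finset.sum_congr rfl fun v hv => ?_
      rw [hH v hv, sub_mul, Finset.sum_mul]
    have h5 : ∑ a ∈ S, cf H j m a * ((if b = a then (2 : ℂ) ^ j else 0) / 2 ^ j) =
        (∑ a ∈ S, cf H j m a * (if b = a then (2 : ℂ) ^ j else 0)) / 2 ^ j := by
      rw [Finset.sum_div]
      exact Finset.sum_congr rfl fun a _ => (mul_div_assoc _ _ _).symm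
    rw [h5]
    show (∑ v ∈ blk j m, H' v * ee (-((b : ℝ) * (v : ℝ) / 2 ^ j))) / 2 ^ j = _
    rw [h3, sub_div]
    rfl
  rw [h1]
  by_cases hbS : b ∈ S
  · rw [if_pos hbS, Finset.sum_eq_single b]
    · rw [if_pos rfl, div_self h2, mul_one, sub_self]
    · intro a _ hab
      rw [if_neg (Ne.symm hab), zero_div, mul_zero]
    · exact fun h => absurd hbS h
  · rw [if_neg hbS, Finset.sum_eq_zero, sub_zero]
    intro a ha
    have hba : ¬ b = a := fun h => hbS (h ▸ ha)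
    rw [if_neg hba, zero_div, mul_zero]

theorem en_rem (hI : T_INV) (H H' : ℤ → ℂ) (j : ℕ) (m : ℤ) (S : Finset ℕ)
    (hS : S ⊆ range (2 ^ j))
    (hH : ∀ v ∈ blk j m, H' v = H v - ∑ a ∈ S, cf H j m a * ee ((a : ℝ) * (v : ℝ) / 2 ^ j)) :
    ∑ v ∈ blk j m, ‖H' v‖ ^ 2 + 2 ^ j * ∑ a ∈ S, ‖cf H j m a‖ ^ 2 =
      ∑ v ∈ blk j m, ‖H v‖ ^ 2 := by
  rw [← (hI H' j m).2.1, ← (hI H j m).2.1, ← mul_add]
  congr 1
  have h1 : ∀ a ∈ range (2 ^ j), ‖cf H' j m a‖ ^ 2 = if a ∈ S then 0 else ‖cf H j m a‖ ^ 2 := by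
    intro a ha
    rw [cf_rem hI H H' j m S hS hH a ha]
    split_ifs
    · simp
    · rfl
  rw [Finset.sum_congr rfl h1]
  have h2 : ∑ a ∈ S, ‖cf H j m a‖ ^ 2 = ∑ a ∈ range (2 ^ j), if a ∈ S then ‖cf H j m a‖ ^ 2 else 0 := by
    rw [← Finset.sum_filter, Finset.filter_mem_eq_inter, Finset.inter_eq_right.2 hS]
  rw [h2, ← Finset.sum_add_distrib]
  refine Finset.sum_congr rfl fun a _ => ?_
  split_ifs <;> simp

open Classical in
/-- the new pieces -/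
noncomputable def nw (H : ℤ → ℂ) (J j : ℕ) (τ : ℝ) : Finset (ℤ × ℕ) :=
  ((Ico (0 : ℤ) (2 ^ (J + 1 - j))) ×ˢ range (2 ^ j)).filter fun x => τ ≤ ‖cf H j x.1 x.2‖

/-- adding the new pieces -/
noncomputable def app {ι : Type} (P : Fam ι) (H : ℤ → ℂ) (J j : ℕ) (τ : ℝ) :
    Fam (ι ⊕ {x // x ∈ nw H J j τ}) where
  sc := Sum.elim P.sc fun _ => j
  mm := Sum.elim P.mm fun x => x.1.1
  be := Sum.elim P.be fun x => (x.1.2 : ℝ) / 2 ^ j
  co := Sum.elim P.co fun x => cf H j x.1.1 x.1.2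

open Classical in
/-- the removed function -/
noncomputable def rem (H : ℤ → ℂ) (J j : ℕ) (τ : ℝ) (v : ℤ) : ℂ :=
  ∑ x ∈ nw H J j τ, if v ∈ blk j x.1 then cf H j x.1 x.2 * ee ((x.2 : ℝ) / 2 ^ j * (v : ℝ)) else 0

theorem str_app_hi {ι : Type} [Fintype ι] (P : Fam ι) (H : ℤ → ℂ) (J j : ℕ) (τ : ℝ) (i : ℕ)
    (hi : j < i) (v : ℤ) : (app P H J j τ).str i v = P.str i v := by
  unfold Fam.str
  rw [Fintype.sum_sum_type]
  have h2 : ∀ x : {x // x ∈ nw H J j τ}, ¬ (i ≤ (app P H J j τ).sc (Sum.inr x) ∧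
      v ∈ blk ((app P H J j τ).sc (Sum.inr x)) ((app P H J j τ).mm (Sum.inr x))) := by
    rintro x ⟨h, -⟩
    have : i ≤ j := h
    omega
  rw [add_eq_left.2 (Finset.sum_eq_zero fun x _ => if_neg (h2 x))]
  rfl

theorem str_app_lo {ι : Type} [Fintype ι] (P : Fam ι) (H : ℤ → ℂ) (J j : ℕ) (τ : ℝ) (i : ℕ)
    (hi : i ≤ j) (v : ℤ) : (app P H J j τ).str i v = P.str i v + rem H J j τ v := by
  unfold Fam.str rem
  rw [Fintype.sum_sum_type]
  congr 1
  rw [← Finset.sum_coe_sort (nw H J j τ)]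
  refine Finset.sum_congr rfl fun x _ => ?_
  by_cases hv : v ∈ blk j x.1.1
  · rw [if_pos hv, if_pos (show i ≤ (app P H J j τ).sc (Sum.inr x) ∧
      v ∈ blk ((app P H J j τ).sc (Sum.inr x)) ((app P H J j τ).mm (Sum.inr x)) from ⟨hi, hv⟩)]
    rfl
  · rw [if_neg hv, if_neg (fun h => hv h.2)]

open Classical in
theorem rem_eq (H : ℤ → ℂ) (J j : ℕ) (τ : ℝ) (m : ℤ) (hm : m ∈ Ico (0 : ℤ) (2 ^ (J + 1 - j)))
    (v : ℤ) (hv : v ∈ blk j m) : rem H J j τ v =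
      ∑ a ∈ (range (2 ^ j)).filter (fun a => τ ≤ ‖cf H j m a‖),
        cf H j m a * ee ((a : ℝ) * (v : ℝ) / 2 ^ j) := by
  unfold rem nw
  rw [Finset.sum_filter, Finset.sum_product, Finset.sum_eq_single m]
  · rw [Finset.sum_filter]
    refine Finset.sum_congr rfl fun a _ => ?_
    simp only [hv, if_true]
    have : (a : ℝ) / 2 ^ j * (v : ℝ) = (a : ℝ) * (v : ℝ) / 2 ^ j := by ring
    rw [this]
  · intro m' _ hmm
    refine Finset.sum_eq_zero fun a _ => ?_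
    have : v ∉ blk j m' := by
      intro h
      rw [mem_blk] at h hv
      exact hmm (h.symm.trans hv)
    simp only [this, if_false, ite_self]
  · exact fun h => absurd hm h

theorem rem_out (H : ℤ → ℂ) (J j : ℕ) (hj : j ≤ J + 1) (τ : ℝ) (v : ℤ)
    (hv : v ∉ Ico (0 : ℤ) (2 ^ (J + 1))) : rem H J j τ v = 0 := by
  unfold rem
  refine Finset.sum_eq_zero fun x hx => if_neg fun h => hv ?_
  unfold nw at hx
  rw [mem_filter, mem_product] at hx
  rw [mem_blk] at h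
  exact (mem_big hj).2 (h ▸ hx.1.1)

theorem str_eq {ι : Type} [Fintype ι] (P : Fam ι) (j : ℕ) (h : ∀ i, j ≤ P.sc i) (v : ℤ) :
    P.str j v = P.str 0 v := by
  unfold Fam.str
  refine Finset.sum_congr rfl fun i _ => ?_
  by_cases hv : v ∈ blk (P.sc i) (P.mm i)
  · rw [if_pos ⟨h i, hv⟩, if_pos ⟨Nat.zero_le _, hv⟩]
  · rw [if_neg fun h => hv h.2, if_neg fun h => hv h.2]

/-- the invariant of the recursion -/
structure Rec (J : ℕ) (τ : ℝ) (F : ℤ → ℂ) (j : ℕ) {ι : Type} [Fintype ι] (P : Fam ι) : Prop where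
  pc : ∀ i, j ≤ P.sc i ∧ P.sc i ≤ J ∧ 0 ≤ P.mm i ∧ (P.mm i + 1) * 2 ^ P.sc i ≤ 2 ^ (J + 1) ∧
    τ ≤ ‖P.co i‖
  en : ∑ i, 2 ^ P.sc i * ‖P.co i‖ ^ 2 + ∑ v ∈ Ico (0 : ℤ) (2 ^ (J + 1)), ‖F v - P.str 0 v‖ ^ 2 ≤
    ∑ v ∈ Ico (0 : ℤ) (2 ^ (J + 1)), ‖F v‖ ^ 2
  z : ∀ v, v ∉ Ico (0 : ℤ) (2 ^ (J + 1)) → F v - P.str 0 v = 0
  c : ∀ i, j ≤ i → i ≤ J → ∀ m, ∀ a < 2 ^ i, ‖cf (fun v => F v - P.str i v) i m a‖ ≤ τ

theorem step (hI : T_INV) {J : ℕ} {τ : ℝ} (hτ : 0 < τ) {F : ℤ → ℂ} {j : ℕ} (hj : j ≤ J)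
    {ι : Type} [Fintype ι] (P : Fam ι) (h : Rec J τ F (j + 1) P) :
    Rec J τ F j (app P (fun v => F v - P.str 0 v) J j τ) := by
  classical
  set H : ℤ → ℂ := fun v => F v - P.str 0 v with hH
  have hj' : j ≤ J + 1 := by omega
  have hstr0 : ∀ v, F v - (app P H J j τ).str 0 v = H v - rem H J j τ v := by
    intro v
    rw [str_app_lo P H J j τ 0 (Nat.zero_le _), hH]
    ring
  have hsc : ∀ i, j ≤ (app P H J j τ).sc i := by
    rintro (i | x)
    · have := (h.pc i).1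
      exact (Nat.le_succ j).trans this
    · exact le_refl j
  have hstrj : ∀ v, F v - (app P H J j τ).str j v = H v - rem H J j τ v := by
    intro v
    rw [str_eq _ j hsc, hstr0]
  -- the function on a block
  have hblk : ∀ m ∈ Ico (0 : ℤ) (2 ^ (J + 1 - j)), ∀ v ∈ blk j m,
      H v - rem H J j τ v = H v - ∑ a ∈ (range (2 ^ j)).filter (fun a => τ ≤ ‖cf H j m a‖),
        cf H j m a * ee ((a : ℝ) * (v : ℝ) / 2 ^ j) := by
    intro m hm v hv
    rw [rem_eq H J j τ m hm v hv]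
  refine ⟨?_, ?_, ?_, ?_⟩
  · rintro (i | x)
    · obtain ⟨h1, h2⟩ := h.pc i
      exact ⟨(Nat.le_succ j).trans h1, h2⟩
    · have hx := x.2
      unfold nw at hx
      rw [mem_filter, mem_product, mem_Ico] at hx
      refine ⟨le_refl j, hj, hx.1.1.1, ?_, hx.2⟩
      show (x.1.1 + 1) * 2 ^ j ≤ 2 ^ (J + 1)
      have h1 : (2 : ℤ) ^ (J + 1) = 2 ^ (J + 1 - j) * 2 ^ j := by
        rw [← pow_add]
        congr 1
        omega
      rw [h1]
      have h2 : x.1.1 + 1 ≤ 2 ^ (J + 1 - j) := hx.1.1.2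
      have h3 : (0 : ℤ) ≤ 2 ^ j := by positivity
      exact mul_le_mul_of_nonneg_right h2 h3
  · refine le_trans (le_of_eq ?_) h.en
    rw [Fintype.sum_sum_type]
    have e1 : ∑ i : ι, (2 : ℝ) ^ (app P H J j τ).sc (Sum.inl i) *
        ‖(app P H J j τ).co (Sum.inl i)‖ ^ 2 = ∑ i, 2 ^ P.sc i * ‖P.co i‖ ^ 2 := rfl
    have e2 : ∑ x : {x // x ∈ nw H J j τ}, (2 : ℝ) ^ (app P H J j τ).sc (Sum.inr x) *
        ‖(app P H J j τ).co (Sum.inr x)‖ ^ 2 =
        ∑ m ∈ Ico (0 : ℤ) (2 ^ (J + 1 - j)),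
          2 ^ j * ∑ a ∈ (range (2 ^ j)).filter (fun a => τ ≤ ‖cf H j m a‖), ‖cf H j m a‖ ^ 2 := by
      have e3 : ∑ x : {x // x ∈ nw H J j τ}, (2 : ℝ) ^ (app P H J j τ).sc (Sum.inr x) *
        ‖(app P H J j τ).co (Sum.inr x)‖ ^ 2 =
        ∑ x ∈ nw H J j τ, (2 : ℝ) ^ j * ‖cf H j x.1 x.2‖ ^ 2 :=
        Finset.sum_coe_sort (nw H J j τ) (fun x => (2 : ℝ) ^ j * ‖cf H j x.1 x.2‖ ^ 2)
      rw [e3]
      unfold nw
      rw [Finset.sum_filter, Finset.sum_product]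
      refine Finset.sum_congr rfl fun m _ => ?_
      rw [Finset.mul_sum, Finset.sum_filter]
    have e4 : ∑ v ∈ Ico (0 : ℤ) (2 ^ (J + 1)), ‖F v - (app P H J j τ).str 0 v‖ ^ 2 +
        ∑ m ∈ Ico (0 : ℤ) (2 ^ (J + 1 - j)),
          2 ^ j * ∑ a ∈ (range (2 ^ j)).filter (fun a => τ ≤ ‖cf H j m a‖), ‖cf H j m a‖ ^ 2 =
        ∑ v ∈ Ico (0 : ℤ) (2 ^ (J + 1)), ‖H v‖ ^ 2 := by
      simp only [hstr0]
      rw [sum_blk hj', sum_blk hj', ← Finset.sum_add_distrib]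
      refine Finset.sum_congr rfl fun m hm => ?_
      exact en_rem hI H (fun v => H v - rem H J j τ v) j m _ (Finset.filter_subset _ _)
        (hblk m hm)
    rw [e1, e2, add_assoc, add_comm (∑ m ∈ Ico (0 : ℤ) (2 ^ (J + 1 - j)), _) _, e4]
  · intro v hv
    rw [hstr0, rem_out H J j hj' τ v hv, sub_zero]
    exact h.z v hv
  · intro i hi hiJ m a ha
    rcases Nat.lt_or_ge j i with hji | hji
    · have e : (fun v => F v - (app P H J j τ).str i v) = fun v => F v - P.str i v := by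
        funext v
        rw [str_app_hi P H J j τ i hji]
      rw [e]
      exact h.c i hji hiJ m a ha
    · obtain rfl : i = j := le_antisymm hji hi
      have e : (fun v => F v - (app P H J i τ).str i v) = fun v => H v - rem H J i τ v := by
        funext v
        exact hstrj v
      rw [e]
      by_cases hm : m ∈ Ico (0 : ℤ) (2 ^ (J + 1 - i))
      · rw [cf_rem hI H (fun v => H v - rem H J i τ v) i m _ (Finset.filter_subset _ _)
          (hblk m hm) a (mem_range.2 ha)]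
        split_ifs with h5
        · rw [norm_zero]
          exact hτ.le
        · rw [mem_filter, not_and] at h5
          exact (not_le.1 (h5 (mem_range.2 ha))).le
      · have e0 : cf (fun v => H v - rem H J i τ v) i m a = 0 := by
          unfold cf
          rw [Finset.sum_eq_zero, zero_div]
          intro v hv
          have hv' : v ∉ Ico (0 : ℤ) (2 ^ (J + 1)) := by
            intro hc
            rw [mem_blk] at hv
            exact hm (hv ▸ (mem_big hj').1 hc)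
          have h6 : H v = 0 := h.z v hv'
          show (H v - rem H J i τ v) * _ = 0
          rw [h6, rem_out H J i hj' τ v hv', sub_zero, zero_mul]
        rw [e0, norm_zero]
        exact hτ.le

theorem pf_PUR (hI : T_INV) : T_PUR := by
  intro J τ F hτ hF1 hF0
  have key : ∀ d, d ≤ J + 1 → ∃ (ι : Type) (_ : Fintype ι) (P : Fam ι), Rec J τ F (J + 1 - d) P := by
    intro d
    induction d with
    | zero =>
      intro _
      refine ⟨Empty, inferInstance, ⟨Empty.elim, Empty.elim, Empty.elim, Empty.elim⟩, ?_⟩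
      refine ⟨fun i => i.elim, ?_, ?_, ?_⟩
      · simp [Fam.str]
      · intro v hv
        simp [Fam.str, hF0 v hv]
      · intro i hi hiJ
        omega
    | succ d ih =>
      intro hd
      obtain ⟨ι, hι, P, hP⟩ := ih (by omega)
      have e : J + 1 - d = (J + 1 - (d + 1)) + 1 := by omega
      rw [e] at hP
      exact ⟨_, inferInstance, _, step hI hτ (by omega) P hP⟩
  obtain ⟨ι, hι, P, hP⟩ := key (J + 1) le_rfl
  rw [Nat.sub_self] at hP
  let e := Fintype.equivFin ι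
  have hstr : ∀ j v, (⟨P.sc ∘ e.symm, P.mm ∘ e.symm, P.be ∘ e.symm, P.co ∘ e.symm⟩ :
      Fam (Fin (Fintype.card ι))).str j v = P.str j v := by
    intro j v
    unfold Fam.str
    exact Equiv.sum_comp e.symm (fun i => open Classical in
      if j ≤ P.sc i ∧ v ∈ blk (P.sc i) (P.mm i) then P.co i * ee (P.be i * (v : ℝ)) else 0)
  refine ⟨Fintype.card ι, ⟨P.sc ∘ e.symm, P.mm ∘ e.symm, P.be ∘ e.symm, P.co ∘ e.symm⟩,
    fun i => (hP.pc (e.symm i)).2, ?_, ?_⟩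
  · have h1 : ∑ i : Fin (Fintype.card ι), (2 : ℝ) ^ (P.sc ∘ e.symm) i * ‖(P.co ∘ e.symm) i‖ ^ 2 =
        ∑ i, 2 ^ P.sc i * ‖P.co i‖ ^ 2 :=
      Equiv.sum_comp e.symm (fun i => (2 : ℝ) ^ P.sc i * ‖P.co i‖ ^ 2)
    have h2 : ∑ v ∈ Ico (0 : ℤ) (2 ^ (J + 1)), ‖F v‖ ^ 2 ≤ 2 ^ (J + 1) := by
      calc ∑ v ∈ Ico (0 : ℤ) (2 ^ (J + 1)), ‖F v‖ ^ 2 ≤ ∑ v ∈ Ico (0 : ℤ) (2 ^ (J + 1)), (1 : ℝ) :=
            Finset.sum_le_sum fun v _ => pow_le_one₀ (norm_nonneg _) (hF1 v)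
        _ = 2 ^ (J + 1) := by
            rw [Finset.sum_const, Int.card_Ico, nsmul_eq_mul, mul_one, sub_zero]
            have : ((2 : ℤ) ^ (J + 1)).toNat = 2 ^ (J + 1) := by
              have h3 : ((2 : ℤ) ^ (J + 1)) = ((2 ^ (J + 1) : ℕ) : ℤ) := by push_cast; rfl
              rw [h3, Int.toNat_natCast]
            rw [this]
            push_cast
            rfl
    have h3 : 0 ≤ ∑ v ∈ Ico (0 : ℤ) (2 ^ (J + 1)), ‖F v - P.str 0 v‖ ^ 2 :=
      Finset.sum_nonneg fun v _ => by positivity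
    have h4 := hP.en
    refine (le_of_eq h1).trans ?_
    linarith
  · intro j hj m a ha
    simp only [hstr]
    exact hP.c j (Nat.zero_le _) hj m a ha

end Pool.Agent.H46.BOU
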