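import Pool.Agent.H31.BOU.Targets2

/-!
# MP_352bb5_an, row STP: one step of the energy
-/

set_option autoImplicit false

namespace Pool.Agent.H46.BOU

open Finset Pool.Agent.H31.BOU

/-- the variance identity -/
theorem stp_var (f0 f1 f2 f y : ℂ) (hf : f = (f0 + 2 * f1 + f2) / 4) :
    (‖f0 - y‖ ^ 2 + 2 * ‖f1 - y‖ ^ 2 + ‖f2 - y‖ ^ 2) / 4 =
      ‖f - y‖ ^ 2 + ((‖f0‖ ^ 2 + 2 * ‖f1‖ ^ 2 + ‖f2‖ ^ 2) / 4 - ‖f‖ ^ 2) := by
  subst hf
  have e : ∀ z : ℂ, ‖z‖ ^ 2 = z.re ^ 2 + z.im ^ 2 := by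
    intro z
    rw [← Complex.normSq_eq_norm_sq, Complex.normSq_apply]
    ring
  have h4r : ((f0 + 2 * f1 + f2) / 4).re = (f0.re + 2 * f1.re + f2.re) / 4 := by
    have : (f0 + 2 * f1 + f2) / 4 = ((1 / 4 : ℝ) : ℂ) * (f0 + ((2 : ℝ) : ℂ) * f1 + f2) := by
      push_cast
      ring
    rw [this, Complex.re_ofReal_mul, Complex.add_re, Complex.add_re, Complex.re_ofReal_mul]
    ring
  have h4i : ((f0 + 2 * f1 + f2) / 4).im = (f0.im + 2 * f1.im + f2.im) / 4 := by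
    have : (f0 + 2 * f1 + f2) / 4 = ((1 / 4 : ℝ) : ℂ) * (f0 + ((2 : ℝ) : ℂ) * f1 + f2) := by
      push_cast
      ring
    rw [this, Complex.im_ofReal_mul, Complex.add_im, Complex.add_im, Complex.im_ofReal_mul]
    ring
  simp only [e, Complex.sub_re, Complex.sub_im, h4r, h4i]
  ring

theorem stp_var_nonneg (f0 f1 f2 f : ℂ) (hf : f = (f0 + 2 * f1 + f2) / 4) :
    0 ≤ (‖f0‖ ^ 2 + 2 * ‖f1‖ ^ 2 + ‖f2‖ ^ 2) / 4 - ‖f‖ ^ 2 := by
  have h := stp_var f0 f1 f2 f f hf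
  rw [sub_self, norm_zero] at h
  have h1 : 0 ≤ (‖f0 - f‖ ^ 2 + 2 * ‖f1 - f‖ ^ 2 + ‖f2 - f‖ ^ 2) / 4 := by positivity
  linarith

open Classical in
theorem stp_coord (σ : ℝ) (hσ : 0 ≤ σ) (A A0 A1 A2 : Prop) (f f0 f1 f2 y : ℂ)
    (hf : f = (f0 + 2 * f1 + f2) / 4) (h0 : A0 → ‖f0‖ ≤ σ) (h1 : A1 → ‖f1‖ ≤ σ)
    (h2 : A2 → ‖f2‖ ≤ σ) (hy : ‖y‖ ≤ σ) :
    (‖(if A0 then f0 else 0) - y‖ ^ 2 + 2 * ‖(if A1 then f1 else 0) - y‖ ^ 2 +
      ‖(if A2 then f2 else 0) - y‖ ^ 2) / 4 ≤ ‖(if A then f else 0) - y‖ ^ 2 +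
      (if A then
        ((‖f0‖ ^ 2 + 2 * ‖f1‖ ^ 2 + ‖f2‖ ^ 2) / 4 - ‖f‖ ^ 2) + 16 * σ ^ 2 *
          (((if A0 then (0 : ℝ) else 1) + 2 * (if A1 then 0 else 1) + (if A2 then 0 else 1)) / 4)
      else 4 * σ ^ 2 *
          (((if A0 then (1 : ℝ) else 0) + 2 * (if A1 then 1 else 0) + (if A2 then 1 else 0)) / 4)) := by
  have hv := stp_var f0 f1 f2 f y hf
  have hv0 := stp_var_nonneg f0 f1 f2 f hf
  have hy0 := norm_nonneg y
  have hs2 : ‖y‖ ^ 2 ≤ σ ^ 2 := by gcongr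
  have hd : ∀ z : ℂ, ‖z‖ ≤ σ → ‖z - y‖ ^ 2 ≤ 4 * σ ^ 2 := by
    intro z hz
    have h3 : ‖z - y‖ ≤ 2 * σ := (norm_sub_le z y).trans (by linarith)
    calc ‖z - y‖ ^ 2 ≤ (2 * σ) ^ 2 := by gcongr
      _ = 4 * σ ^ 2 := by ring
  have hz : ‖(0 : ℂ) - y‖ ^ 2 = ‖y‖ ^ 2 := by rw [zero_sub, norm_neg]
  have hσ2 : 0 ≤ σ ^ 2 := by positivity
  have hy2 : 0 ≤ ‖y‖ ^ 2 := by positivity
  have hfy : 0 ≤ ‖f - y‖ ^ 2 := by positivity
  by_cases hA : A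
  · simp only [hA, if_true]
    by_cases hA0 : A0 <;> by_cases hA1 : A1 <;> by_cases hA2 : A2 <;>
      simp only [hA0, hA1, hA2, if_true, if_false, hz]
    · linarith
    · have := hd _ (h0 hA0); have := hd _ (h1 hA1); linarith
    · have := hd _ (h0 hA0); have := hd _ (h2 hA2); linarith
    · have := hd _ (h0 hA0); linarith
    · have := hd _ (h1 hA1); have := hd _ (h2 hA2); linarith
    · have := hd _ (h1 hA1); linarith
    · have := hd _ (h2 hA2); linarith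
    · linarith
  · simp only [hA, if_false, hz]
    by_cases hA0 : A0 <;> by_cases hA1 : A1 <;> by_cases hA2 : A2 <;>
      simp only [hA0, hA1, hA2, if_true, if_false, hz]
    · have := hd _ (h0 hA0); have := hd _ (h1 hA1); have := hd _ (h2 hA2); linarith
    · have := hd _ (h0 hA0); have := hd _ (h1 hA1); linarith
    · have := hd _ (h0 hA0); have := hd _ (h2 hA2); linarith
    · have := hd _ (h0 hA0); linarith
    · have := hd _ (h1 hA1); have := hd _ (h2 hA2); linarith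
    · have := hd _ (h1 hA1); linarith
    · have := hd _ (h2 hA2); linarith
    · linarith

theorem pf_STP (hG : T_MG) : T_STP := by
  classical
  intro ι θ _ _ c r q σ G Q P hσ hb j p s y hy
  set κ : ℤ := (p : ℤ) + s with hκ
  have e00 : (((2 * p + 0 : ℕ) : ℤ) + ((2 * s + 0 : ℕ) : ℤ)) = 2 * κ := by rw [hκ]; push_cast; ring
  have e01 : (((2 * p + 0 : ℕ) : ℤ) + ((2 * s + 1 : ℕ) : ℤ)) = 2 * κ + 1 := by
    rw [hκ]; push_cast; ring
  have e10 : (((2 * p + 1 : ℕ) : ℤ) + ((2 * s + 0 : ℕ) : ℤ)) = 2 * κ + 1 := by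
    rw [hκ]; push_cast; ring
  have e11 : (((2 * p + 1 : ℕ) : ℤ) + ((2 * s + 1 : ℕ) : ℤ)) = 2 * κ + 2 := by
    rw [hκ]; push_cast; ring
  rw [Finset.sum_range_succ, Finset.sum_range_one, Finset.sum_range_succ, Finset.sum_range_one,
    Finset.sum_range_succ, Finset.sum_range_one, e00, e01, e10, e11]
  simp only [EuclideanSpace.norm_sq_eq]
  rw [← Finset.sum_add_distrib, ← Finset.sum_add_distrib, ← Finset.sum_add_distrib,
    Finset.sum_div, ← Finset.sum_add_distrib]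
  refine Finset.sum_le_sum fun i _ => ?_
  have hk := stp_coord σ hσ (alive c r q Q P i (j + 1) κ) (alive c r q Q P i j (2 * κ))
    (alive c r q Q P i j (2 * κ + 1)) (alive c r q Q P i j (2 * κ + 2))
    (ph G (P.be i) (j + 1) κ) (ph G (P.be i) j (2 * κ)) (ph G (P.be i) j (2 * κ + 1))
    (ph G (P.be i) j (2 * κ + 2)) (y i) (hG G (P.be i) j κ) (hb i j _) (hb i j _) (hb i j _)
    (hy i)
  refine le_trans (le_of_eq ?_) (hk.trans (le_of_eq ?_))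
  · show (_ + _ + (_ + _)) / 4 = _
    simp only [xv, PiLp.sub_apply]
    ring
  · simp only [xv, PiLp.sub_apply, en1, vr]

end Pool.Agent.H46.BOU
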